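import Mathlib

/-!
# Stable invariants for the Klein four group

`K = ZMod 2`, `G` the Klein four group. For a finite-dimensional representation `X` let
`cc X = dim X - 4 rank (norm)`. It is the dimension of the core (the non-projective part) of `X`.
-/

set_option autoImplicit false

open CategoryTheory CategoryTheory.MonoidalCategory CategoryTheory.Limits

namespace Pool.Agent.K7.H90.CD

/-- the field -/
abbrev K : Type := ZMod 2

/-- the Klein four group -/
abbrev G : Type := Multiplicative (ZMod 2 × ZMod 2)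

/-- the element with coordinates `i, j` -/
abbrev el (i j : ZMod 2) : G := Multiplicative.ofAdd (i, j)

lemma sum_G {A : Type*} [AddCommMonoid A] (F : G → A) :
    ∑ g : G, F g = F (el 0 0) + F (el 0 1) + (F (el 1 0) + F (el 1 1)) := by
  have h : ∑ g : G, F g = ∑ p : ZMod 2 × ZMod 2, F (el p.1 p.2) := rfl
  rw [h, Fintype.sum_prod_type]
  rw [show (Finset.univ : Finset (ZMod 2)) = {0, 1} from rfl]
  simp

lemma cases_G (g : G) : g = el 0 0 ∨ g = el 0 1 ∨ g = el 1 0 ∨ g = el 1 1 := by
  revert g; decide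

lemma one_eq : (1 : G) = el 0 0 := rfl

lemma el_mul (a b c d : ZMod 2) : el a b * el c d = el (a + c) (b + d) := rfl

lemma inv_eq (g : G) : g⁻¹ = g := by
  revert g; decide

lemma mul_self (g : G) : g * g = 1 := by
  revert g; decide

lemma char_two {V : Type*} [AddCommGroup V] [Module K V] (v : V) : v + v = 0 := by
  have : ((1 : K) + 1) • v = 0 := by
    rw [show (1 : K) + 1 = 0 from rfl, zero_smul]
  rwa [add_smul, one_smul] at this

lemma neg_eq {V : Type*} [AddCommGroup V] [Module K V] (v : V) : -v = v :=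
  neg_eq_of_add_eq_zero_left (char_two v)

/-- the category of representations -/
abbrev Rp : Type 1 := Rep.{0} K G

variable (X Y : Rp)

/-- the norm map -/
noncomputable def nu (X : Rp) : X.V →ₗ[K] X.V := ∑ g : G, X.ρ g

lemma nu_apply (v : X.V) : nu X v = ∑ g : G, X.ρ g v := by
  simp [nu]

/-- the invariant -/
noncomputable def cc (X : Rp) : ℤ :=
  (Module.finrank K X.V : ℤ) - 4 * Module.finrank K (LinearMap.range (nu X))

variable {X Y}

/-- the linear equivalence underlying an isomorphism -/
noncomputable def linEq (e : X ≅ Y) : X.V ≃ₗ[K] Y.V where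
  toFun := e.hom.hom
  invFun := e.inv.hom
  left_inv x := by simp
  right_inv x := by simp
  map_add' := by simp
  map_smul' := by simp

lemma linEq_apply (e : X ≅ Y) (x : X.V) : linEq e x = e.hom.hom x := rfl

lemma linEq_rho (e : X ≅ Y) (g : G) (x : X.V) : linEq e (X.ρ g x) = Y.ρ g (linEq e x) :=
  Rep.hom_comm_apply e.hom g x

lemma cc_iso (e : X ≅ Y) : cc X = cc Y := by
  have h1 : Module.finrank K X.V = Module.finrank K Y.V := (linEq e).finrank_eq
  have h2 : (LinearMap.range (nu X)).map (linEq e).toLinearMap = LinearMap.range (nu Y) := by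
    ext y
    constructor
    · rintro ⟨_, ⟨x, rfl⟩, rfl⟩
      refine ⟨linEq e x, ?_⟩
      simp [nu_apply, linEq_rho]
    · rintro ⟨y, rfl⟩
      refine ⟨nu X ((linEq e).symm y), ⟨_, rfl⟩, ?_⟩
      simp [nu_apply, linEq_rho]
  have h3 : Module.finrank K (LinearMap.range (nu X)) = Module.finrank K (LinearMap.range (nu Y)) := by
    rw [← h2]
    exact ((linEq e).submoduleMap _).finrank_eq
  rw [cc, cc, h1, h3]

/-- the product representation -/
noncomputable abbrev prd (X Y : Rp) : Rp := Rep.of (X.ρ.prod Y.ρ)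

/-- the bicone of the product -/
noncomputable def prdBicone (X Y : Rp) : BinaryBicone X Y where
  pt := prd X Y
  fst := Rep.ofHom (.fst K X.ρ Y.ρ)
  snd := Rep.ofHom (.snd K X.ρ Y.ρ)
  inl := Rep.ofHom (.inl K X.ρ Y.ρ)
  inr := Rep.ofHom (.inr K X.ρ Y.ρ)
  inl_fst := by ext1; simp
  inl_snd := by ext1; simp [Rep.zero_hom]
  inr_fst := by ext1; simp [Rep.zero_hom]
  inr_snd := by ext1; simp

/-- the biproduct is the product -/
noncomputable def prodIso (X Y : Rp) : X ⊞ Y ≅ prd X Y :=
  (biprod.uniqueUpToIso X Y (b := prdBicone X Y)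
    (isBinaryBilimitOfTotal _ (by
      ext1
      change (Representation.IntertwiningMap.inl K X.ρ Y.ρ).comp
        (Representation.IntertwiningMap.fst K X.ρ Y.ρ) +
        (Representation.IntertwiningMap.inr K X.ρ Y.ρ).comp
        (Representation.IntertwiningMap.snd K X.ρ Y.ρ) = _
      simp
      rfl))).symm

lemma nu_prd (v : X.V × Y.V) : nu (prd X Y) v = (nu X v.1, nu Y v.2) := by
  rw [nu_apply, nu_apply, nu_apply]
  ext <;> simp [Prod.fst_sum, Prod.snd_sum]

/-- the submodule `p × q` -/
def prodSub {V W : Type*} [AddCommGroup V] [AddCommGroup W] [Module K V] [Module K W]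
    (p : Submodule K V) (q : Submodule K W) : (p.prod q) ≃ₗ[K] p × q where
  toFun v := (⟨v.1.1, v.2.1⟩, ⟨v.1.2, v.2.2⟩)
  invFun v := ⟨(v.1.1, v.2.1), ⟨v.1.2, v.2.2⟩⟩
  left_inv _ := rfl
  right_inv _ := rfl
  map_add' _ _ := rfl
  map_smul' _ _ := rfl

lemma cc_prd [FiniteDimensional K X.V] [FiniteDimensional K Y.V] :
    cc (prd X Y) = cc X + cc Y := by
  have h1 : Module.finrank K (prd X Y).V = Module.finrank K X.V + Module.finrank K Y.V :=
    Module.finrank_prod
  have h2 : nu (prd X Y) = (nu X).prodMap (nu Y) := by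
    apply LinearMap.ext
    intro v
    exact nu_prd v
  have h3 : Module.finrank K (LinearMap.range (nu (prd X Y))) =
      Module.finrank K (LinearMap.range (nu X)) + Module.finrank K (LinearMap.range (nu Y)) := by
    rw [h2, LinearMap.range_prodMap]
    rw [← Module.finrank_prod]
    exact (prodSub _ _).finrank_eq
  rw [cc, cc, cc, h1, h3]
  push_cast
  ring

instance fd_prd [FiniteDimensional K X.V] [FiniteDimensional K Y.V] :
    FiniteDimensional K (prd X Y).V := inferInstanceAs (FiniteDimensional K (X.V × Y.V))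

instance fd_biprod [FiniteDimensional K X.V] [FiniteDimensional K Y.V] :
    FiniteDimensional K (X ⊞ Y : Rp).V :=
  Module.Finite.equiv (linEq (prodIso X Y)).symm

instance fd_tensor [FiniteDimensional K X.V] [FiniteDimensional K Y.V] :
    FiniteDimensional K (X ⊗ Y : Rp).V := inferInstanceAs (FiniteDimensional K (TensorProduct K X.V Y.V))

lemma cc_biprod [FiniteDimensional K X.V] [FiniteDimensional K Y.V] :
    cc (X ⊞ Y) = cc X + cc Y := by
  rw [cc_iso (prodIso X Y), cc_prd]

/-- Splitting: an exact sequence `0 → N → X → P → 0` with a section gives `X ≅ N × P`. -/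
lemma iso_of_split {N X P : Rp} (i : N ⟶ X) (p : X ⟶ P) (s : P ⟶ X)
    (hi : Function.Injective i.hom) (hip : ∀ x : X.V, p.hom x = 0 → ∃ n, i.hom n = x)
    (hpi : ∀ n, p.hom (i.hom n) = 0) (hs : ∀ y, p.hom (s.hom y) = y) :
    Nonempty (X ≅ prd N P) := by
  let f : prd N P ⟶ X := (prdBicone N P).fst ≫ i + (prdBicone N P).snd ≫ s
  have hf : ∀ v : N.V × P.V, f.hom v = i.hom v.1 + s.hom v.2 := by
    intro v
    rfl
  have hbij : Function.Bijective f.hom := by
    constructor
    · intro v w hvw
      rw [hf, hf] at hvw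
      have h1 := congrArg p.hom hvw
      rw [map_add, map_add, hpi, hpi, hs, hs, zero_add, zero_add] at h1
      rw [h1] at hvw
      have h2 := hi (add_right_cancel hvw)
      exact Prod.ext h2 h1
    · intro x
      obtain ⟨n, hn⟩ := hip (x - s.hom (p.hom x)) (by rw [map_sub, hs, sub_self])
      refine ⟨(n, p.hom x), ?_⟩
      rw [hf, hn]
      simp
  have : IsIso f := by
    have h1 : Mono f := (Rep.mono_iff_injective f).2 hbij.1
    have h2 : Epi f := (Rep.epi_iff_surjective f).2 hbij.2
    exact isIso_of_mono_of_epi f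
  exact ⟨(asIso f).symm⟩

/-- Higman's criterion -/
def Hig (X : Rp) : Prop := ∃ θ : X.V →ₗ[K] X.V, ∀ v, ∑ g : G, X.ρ g (θ (X.ρ g v)) = v

lemma rho_rho (X : Rp) (g : G) (v : X.V) : X.ρ g (X.ρ g v) = v := by
  rw [← Module.End.mul_apply, ← map_mul, mul_self, map_one, Module.End.one_apply]

lemma Hig.iso {X Y : Rp} (e : X ≅ Y) (h : Hig X) : Hig Y := by
  obtain ⟨θ, hθ⟩ := h
  refine ⟨(linEq e).toLinearMap ∘ₗ θ ∘ₗ (linEq e).symm.toLinearMap, fun v => ?_⟩
  have h1 := congrArg (linEq e) (hθ ((linEq e).symm v))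
  rw [map_sum] at h1
  simp only [linEq_rho, LinearEquiv.apply_symm_apply] at h1
  convert h1 using 2 with g
  have h2 : (linEq e).symm (Y.ρ g v) = X.ρ g ((linEq e).symm v) := by
    apply (linEq e).injective
    rw [linEq_rho]; simp
  simp [h2]

lemma Hig.tensor {X : Rp} (h : Hig X) (Y : Rp) : Hig (X ⊗ Y) := by
  obtain ⟨θ, hθ⟩ := h
  refine ⟨θ.rTensor Y.V, fun v => ?_⟩
  have h1 : (∑ g : G, (X ⊗ Y).ρ g ∘ₗ (θ.rTensor Y.V) ∘ₗ (X ⊗ Y).ρ g) = LinearMap.id := by
    apply TensorProduct.ext'
    intro x y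
    simp only [LinearMap.sum_apply, LinearMap.comp_apply, Rep.tensor_ρ, LinearMap.id_apply]
    have h2 : ∀ g : G, (X.ρ.tprod Y.ρ) g ((θ.rTensor Y.V) ((X.ρ.tprod Y.ρ) g (x ⊗ₜ[K] y))) =
        (X.ρ g (θ (X.ρ g x))) ⊗ₜ[K] y := by
      intro g
      simp [rho_rho]
    rw [Finset.sum_congr rfl fun g _ => h2 g, ← TensorProduct.sum_tmul, hθ]
  have h3 := LinearMap.congr_fun h1 v
  simpa using h3

lemma Hig.prd {X Y : Rp} (hX : Hig X) (hY : Hig Y) : Hig (prd X Y) := by
  obtain ⟨θ, hθ⟩ := hX
  obtain ⟨η, hη⟩ := hY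
  refine ⟨θ.prodMap η, fun v => ?_⟩
  have h1 := hθ v.1
  have h2 := hη v.2
  ext
  · simpa [Prod.fst_sum] using h1
  · simpa [Prod.snd_sum] using h2

/-- a retract of a representation satisfying Higman's criterion satisfies it -/
lemma Hig.retract {X Y : Rp} (h : Hig X) (i : Y ⟶ X) (p : X ⟶ Y) (hip : ∀ y, p.hom (i.hom y) = y) :
    Hig Y := by
  obtain ⟨θ, hθ⟩ := h
  refine ⟨p.hom.toLinearMap ∘ₗ θ ∘ₗ i.hom.toLinearMap, fun v => ?_⟩
  have h1 := congrArg p.hom (hθ (i.hom v))
  rw [map_sum, hip] at h1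
  convert h1 using 2 with g
  simp [Rep.hom_comm_apply]

lemma Hig.projective {P : Rp} (h : Hig P) : Projective P := by
  obtain ⟨θ, hθ⟩ := h
  constructor
  intro E X f e he
  have he' := (Rep.epi_iff_surjective e).1 he
  obtain ⟨s, hs⟩ := LinearMap.exists_rightInverse_of_surjective e.hom.toLinearMap
    (LinearMap.range_eq_top.2 he')
  have hs' : ∀ x, e.hom (s x) = x := fun x => LinearMap.congr_fun hs x
  let L : P.V →ₗ[K] E.V := ∑ g : G, E.ρ g ∘ₗ s ∘ₗ f.hom.toLinearMap ∘ₗ θ ∘ₗ P.ρ g
  have hL : ∀ v, L v = ∑ g : G, E.ρ g (s (f.hom (θ (P.ρ g v)))) := by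
    intro v
    simp [L]
  refine ⟨Rep.ofHom ⟨L, fun a => ?_⟩, ?_⟩
  · apply LinearMap.ext
    intro v
    simp only [LinearMap.comp_apply]
    rw [hL, hL, map_sum]
    refine Fintype.sum_equiv (Equiv.mulRight a) _ _ ?_
    intro g
    simp only [Equiv.coe_mulRight]
    have h1 : P.ρ (g * a) v = P.ρ g (P.ρ a v) := by
      rw [map_mul, Module.End.mul_apply]
    have h2 : ∀ w, E.ρ a (E.ρ (g * a) w) = E.ρ g w := by
      intro w
      rw [← Module.End.mul_apply, ← map_mul, mul_comm g a, ← mul_assoc, mul_self, one_mul]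
    rw [h1, h2]
  · ext1
    apply Representation.IntertwiningMap.ext
    apply LinearMap.ext
    intro v
    change e.hom (L v) = f.hom v
    rw [hL, map_sum]
    have h3 := congrArg f.hom (hθ v)
    rw [map_sum] at h3
    rw [← h3]
    refine Finset.sum_congr rfl fun g _ => ?_
    rw [Rep.hom_comm_apply, Rep.hom_comm_apply, hs']

/-- the action of `G` on the functions on `G` -/
noncomputable def fnRho (V : Type) [AddCommGroup V] [Module K V] :
    Representation K G (G → V) where
  toFun g := LinearMap.funLeft K V (fun h => h * g)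
  map_one' := by
    apply LinearMap.ext
    intro f
    funext h
    simp [LinearMap.funLeft]
  map_mul' a b := by
    apply LinearMap.ext
    intro f
    funext h
    simp only [LinearMap.funLeft, Module.End.mul_apply, LinearMap.coe_mk, AddHom.coe_mk,
      Function.comp_apply]
    rw [mul_assoc]

/-- the `V`-valued functions on `G` -/
noncomputable abbrev fn (V : Type) [AddCommGroup V] [Module K V] : Rp := Rep.of (fnRho V)

@[simp] lemma fnRho_apply (V : Type) [AddCommGroup V] [Module K V] (g h : G) (f : G → V) :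
    fnRho V g f h = f (h * g) := rfl

lemma hig_fn (V : Type) [AddCommGroup V] [Module K V] : Hig (fn V) := by
  refine ⟨LinearMap.single K (fun _ : G => V) 1 ∘ₗ LinearMap.proj 1, fun f => ?_⟩
  funext h
  change (∑ g : G, fnRho V g (Pi.single 1 (fnRho V g f 1))) h = f h
  rw [Finset.sum_apply]
  simp only [fnRho_apply, one_mul]
  rw [Finset.sum_eq_single h]
  · rw [mul_self, Pi.single_eq_same]
  · intro g _ hg
    rw [Pi.single_eq_of_ne]
    intro hcon
    apply hg
    rw [← inv_eq g]
    exact inv_eq_of_mul_eq_one_left hcon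
  · simp

/-- the canonical map `(G → X) → X` is an epimorphism from a module satisfying Higman's criterion -/
noncomputable def evalMap (X : Rp) : fn X.V ⟶ X :=
  Rep.ofHom (σ := X.ρ) (ρ := fnRho X.V)
    ⟨∑ g : G, X.ρ g ∘ₗ (LinearMap.proj g : (G → X.V) →ₗ[K] X.V), fun a => by
      apply LinearMap.ext
      intro f
      simp only [LinearMap.comp_apply, LinearMap.sum_apply, LinearMap.proj_apply, fnRho_apply,
        map_sum]
      refine Fintype.sum_equiv (Equiv.mulRight a) _ _ ?_
      intro g
      simp only [Equiv.coe_mulRight]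
      rw [← Module.End.mul_apply, ← map_mul, mul_comm g a, ← mul_assoc, mul_self, one_mul]⟩

lemma evalMap_apply (X : Rp) (f : G → X.V) : (evalMap X).hom f = ∑ g : G, X.ρ g (f g) := by
  change (∑ g : G, X.ρ g ∘ₗ (LinearMap.proj g : (G → X.V) →ₗ[K] X.V)) f = _
  simp

lemma evalMap_surj (X : Rp) : Function.Surjective (evalMap X).hom := by
  intro x
  refine ⟨Pi.single 1 x, ?_⟩
  rw [evalMap_apply, Finset.sum_eq_single 1]
  · simp
  · intro g _ hg
    rw [Pi.single_eq_of_ne hg, map_zero]
  · simp

lemma section_of_projective {P X : Rp} (hP : Projective P) (p : X ⟶ P)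
    (hp : Function.Surjective p.hom) : ∃ s : P ⟶ X, ∀ y, p.hom (s.hom y) = y := by
  have h1 : Epi p := (Rep.epi_iff_surjective p).2 hp
  refine ⟨Projective.factorThru (𝟙 P) p, fun y => ?_⟩
  have h2 := Projective.factorThru_comp (𝟙 P) p
  have h3 : (Projective.factorThru (𝟙 P) p ≫ p).hom y = (𝟙 P : P ⟶ P).hom y := by rw [h2]
  exact h3

lemma hig_of_projective {P : Rp} (h : Projective P) : Hig P := by
  obtain ⟨s, hs⟩ := section_of_projective h (evalMap P) (evalMap_surj P)
  exact (hig_fn P.V).retract s (evalMap P) hs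

lemma add_eq_zero_iff' {V : Type*} [AddCommGroup V] [Module K V] (v w : V) :
    v + w = 0 ↔ v = w := by
  rw [add_eq_zero_iff_eq_neg, neg_eq]

/-- the invariant vanishes for projective representations -/
lemma cc_hig {X : Rp} [FiniteDimensional K X.V] (h : Hig X) : cc X = 0 := by
  obtain ⟨θ, hθ⟩ := h
  let S : X.V →ₗ[K] X.V := LinearMap.id + X.ρ (el 0 1)
  let R : X.V →ₗ[K] X.V := LinearMap.id + X.ρ (el 1 0)
  have hS : ∀ v, S v = v + X.ρ (el 0 1) v := fun v => rfl
  have hR : ∀ v, R v = v + X.ρ (el 1 0) v := fun v => rfl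
  have hnu : nu X = R ∘ₗ S := by
    apply LinearMap.ext
    intro v
    rw [nu_apply, sum_G, LinearMap.comp_apply, hS, hR, map_add]
    have h1 : X.ρ (el 0 0) v = v := by
      rw [← one_eq, map_one, Module.End.one_apply]
    have h2 : X.ρ (el 1 0) (X.ρ (el 0 1) v) = X.ρ (el 1 1) v := by
      rw [← Module.End.mul_apply, ← map_mul]; rfl
    rw [h1, h2]
  have h01 : ∀ v, X.ρ (el 0 1) (S v) = S v := by
    intro v
    rw [hS, map_add, rho_rho, add_comm]
  have kS : LinearMap.ker S = LinearMap.range S := by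
    ext v
    rw [LinearMap.mem_ker, LinearMap.mem_range]
    constructor
    · intro hv
      rw [hS, add_eq_zero_iff'] at hv
      refine ⟨θ v + X.ρ (el 1 0) (θ (X.ρ (el 1 0) v)), ?_⟩
      have h1 := hθ v
      rw [sum_G] at h1
      have h2 : X.ρ (el 0 0) v = v := by
        rw [← one_eq, map_one, Module.End.one_apply]
      have h2' : X.ρ (el 0 0) (θ v) = θ v := by
        rw [← one_eq, map_one, Module.End.one_apply]
      have h3 : X.ρ (el 1 1) v = X.ρ (el 1 0) v := by
        conv_rhs => rw [hv]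
        rw [← Module.End.mul_apply, ← map_mul]; rfl
      have h4 : ∀ w, X.ρ (el 1 1) w = X.ρ (el 0 1) (X.ρ (el 1 0) w) := by
        intro w
        rw [← Module.End.mul_apply, ← map_mul]; rfl
      rw [h2, h2', h3, ← hv, h4] at h1
      rw [hS, map_add]
      refine Eq.trans ?_ h1
      abel
    · rintro ⟨w, rfl⟩
      rw [hS, h01, char_two]
  have hd1 : Module.finrank K X.V = 2 * Module.finrank K (LinearMap.range S) := by
    have h1 := LinearMap.finrank_range_add_finrank_ker S
    rw [kS] at h1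
    omega
  have hk2 : ∀ v, v ∈ LinearMap.range S → R v = 0 → v ∈ LinearMap.range (nu X) := by
    rintro v ⟨w, rfl⟩ hv
    rw [hR, add_eq_zero_iff'] at hv
    refine ⟨θ (S w), ?_⟩
    have h1 := hθ (S w)
    have h2 : ∀ g : G, X.ρ g (S w) = S w := by
      intro g
      rcases cases_G g with rfl | rfl | rfl | rfl
      · rw [← one_eq, map_one, Module.End.one_apply]
      · exact h01 w
      · exact hv.symm
      · rw [show el 1 1 = el 1 0 * el 0 1 from rfl, map_mul, Module.End.mul_apply, h01]
        exact hv.symm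
    simp only [h2] at h1
    rw [nu_apply, h1]
  have hd2 : Module.finrank K (LinearMap.range S) =
      2 * Module.finrank K (LinearMap.range (nu X)) := by
    have h1 := LinearMap.finrank_range_add_finrank_ker (R.domRestrict (LinearMap.range S))
    have h2 : LinearMap.range (R.domRestrict (LinearMap.range S)) = LinearMap.range (nu X) := by
      rw [hnu]
      ext v
      constructor
      · rintro ⟨⟨_, ⟨w, rfl⟩⟩, rfl⟩
        exact ⟨w, rfl⟩
      · rintro ⟨w, rfl⟩
        exact ⟨⟨S w, ⟨w, rfl⟩⟩, rfl⟩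
    have hRnu : ∀ v, R (nu X v) = 0 := by
      intro v
      rw [hnu, LinearMap.comp_apply]
      rw [hR (S v), hR, map_add, rho_rho]
      have := char_two (S v + X.ρ (el 1 0) (S v))
      rw [← this]; abel
    have h3 : Module.finrank K (LinearMap.ker (R.domRestrict (LinearMap.range S))) =
        Module.finrank K (LinearMap.range (nu X)) := by
      refine LinearEquiv.finrank_eq (LinearEquiv.ofBijective
        ({ toFun := fun v => ⟨v.1.1, hk2 _ v.1.2 v.2⟩
           map_add' := fun _ _ => rfl
           map_smul' := fun _ _ => rfl } :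
          LinearMap.ker (R.domRestrict (LinearMap.range S)) →ₗ[K] LinearMap.range (nu X)) ⟨?_, ?_⟩)
      · intro v w hvw
        have := congrArg Subtype.val hvw
        exact Subtype.ext (Subtype.ext this)
      · rintro ⟨_, ⟨w, rfl⟩⟩
        refine ⟨⟨⟨nu X w, ?_⟩, ?_⟩, rfl⟩
        · have : nu X w = S (R w) := by
            rw [hnu, LinearMap.comp_apply, hS, hR, hS, hR, map_add, map_add]
            have h5 : X.ρ (el 1 0) (X.ρ (el 0 1) w) = X.ρ (el 0 1) (X.ρ (el 1 0) w) := by
              rw [← Module.End.mul_apply, ← Module.End.mul_apply, ← X.ρ.map_mul, ← X.ρ.map_mul]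
              rfl
            rw [h5]; abel
          rw [this]
          exact ⟨_, rfl⟩
        · exact hRnu w
    rw [h2, h3] at h1
    omega
  rw [cc, hd1, hd2]
  push_cast
  ring

end Pool.Agent.K7.H90.CD
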