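import Pool.Agent.K7.H90.CD.Omega

set_option autoImplicit false

open CategoryTheory CategoryTheory.MonoidalCategory CategoryTheory.Limits

namespace Pool.Agent.K7.H90.CD

section Kr

variable {T S : Type} [AddCommGroup T] [Module K T] [AddCommGroup S] [Module K S]

/-- the representation on `T × S` given by two linear maps `T → S` -/
noncomputable def krRho (α β : T →ₗ[K] S) : Representation K G (T × S) where
  toFun g := LinearMap.id + (LinearMap.inr K T S) ∘ₗ
    ((Multiplicative.toAdd g).1 • α + (Multiplicative.toAdd g).2 • β) ∘ₗ LinearMap.fst K T S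
  map_one' := by
    apply LinearMap.ext
    rintro ⟨t, s⟩
    simp
  map_mul' a b := by
    apply LinearMap.ext
    rintro ⟨t, s⟩
    simp [add_smul]
    abel

/-- the representation on `T × S` given by two linear maps `T → S` -/
noncomputable abbrev kr (α β : T →ₗ[K] S) : Rp := Rep.of (krRho α β)

lemma krRho_apply (α β : T →ₗ[K] S) (i j : ZMod 2) (t : T) (s : S) :
    krRho α β (el i j) (t, s) = (t, s + (i • α t + j • β t)) := by
  simp [krRho]

lemma nu_kr (α β : T →ₗ[K] S) : nu (kr α β) = 0 := by
  apply LinearMap.ext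
  rintro ⟨t, s⟩
  rw [nu_apply, sum_G]
  change krRho α β (el 0 0) (t, s) + krRho α β (el 0 1) (t, s) +
    (krRho α β (el 1 0) (t, s) + krRho α β (el 1 1) (t, s)) = (0, 0)
  simp only [krRho_apply, Prod.mk_add_mk, zero_smul, one_smul, add_zero, zero_add]
  have h1 := char_two t
  have h2 := char_two s
  have h3 := char_two (α t)
  have h4 := char_two (β t)
  refine Prod.ext ?_ ?_
  · simp only [h1, add_zero]
  · calc s + (s + β t) + (s + α t + (s + (α t + β t)))
        = (s + s) + (s + s) + (α t + α t) + (β t + β t) := by abel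
      _ = 0 := by rw [h2, h3, h4]; simp

lemma cc_kr (α β : T →ₗ[K] S) [FiniteDimensional K T] [FiniteDimensional K S] :
    cc (kr α β) = Module.finrank K T + Module.finrank K S := by
  rw [cc, nu_kr, LinearMap.range_zero, finrank_bot]
  have : Module.finrank K (kr α β).V = Module.finrank K T + Module.finrank K S :=
    Module.finrank_prod
  rw [this]
  push_cast
  ring

variable {R : Type} [AddCommGroup R] [Module K R]

/-- the covering map -/
noncomputable def cov (α β : T →ₗ[K] S) : fn T ⟶ kr α β :=
  Rep.ofHom (σ := krRho α β) (ρ := fnRho T)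
    ⟨∑ g : G, (krRho α β g) ∘ₗ (LinearMap.inl K T S) ∘ₗ (LinearMap.proj g : (G → T) →ₗ[K] T),
    fun a => by
      apply LinearMap.ext
      intro f
      simp only [LinearMap.comp_apply, LinearMap.sum_apply, LinearMap.proj_apply, fnRho_apply,
        map_sum]
      refine Fintype.sum_equiv (Equiv.mulRight a) _ _ ?_
      intro g
      simp only [Equiv.coe_mulRight]
      rw [← Module.End.mul_apply, ← map_mul, mul_comm g a, ← mul_assoc, mul_self, one_mul]⟩

lemma cov_apply (α β : T →ₗ[K] S) (f : G → T) : (cov α β).hom f =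
    (f (el 0 0) + f (el 0 1) + (f (el 1 0) + f (el 1 1)),
      α (f (el 1 0) + f (el 1 1)) + β (f (el 0 1) + f (el 1 1))) := by
  change (∑ g : G, (krRho α β g) ∘ₗ (LinearMap.inl K T S) ∘ₗ
    (LinearMap.proj g : (G → T) →ₗ[K] T)) f = _
  rw [sum_G]
  simp only [LinearMap.add_apply, LinearMap.comp_apply, LinearMap.proj_apply, LinearMap.inl_apply,
    krRho_apply, Prod.mk_add_mk, zero_smul, one_smul, add_zero, zero_add, map_add]
  refine Prod.ext rfl ?_
  change β (f (el 0 1)) + (α (f (el 1 0)) + (α (f (el 1 1)) + β (f (el 1 1)))) = _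
  abel_nf

/-- the inclusion of the kernel -/
noncomputable def inc (p q : R →ₗ[K] T) : kr p q ⟶ fn T :=
  Rep.ofHom (σ := fnRho T) (ρ := krRho p q)
    ⟨LinearMap.pi fun g => LinearMap.snd K R T +
      ((1 + (Multiplicative.toAdd g).2) • q + (1 + (Multiplicative.toAdd g).1) • p) ∘ₗ
        LinearMap.fst K R T,
    fun a => by
      apply LinearMap.ext
      rintro ⟨r, t⟩
      funext h
      simp [krRho, add_smul]
      abel⟩

lemma inc_apply (p q : R →ₗ[K] T) (r : R) (t : T) (i j : ZMod 2) :
    (inc p q).hom (r, t) (el i j) = t + ((1 + j) • q r + (1 + i) • p r) := rfl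

lemma om_kr [FiniteDimensional K T] (p q : R →ₗ[K] T) (α β : T →ₗ[K] S)
    (hinj : ∀ r, p r = 0 → q r = 0 → r = 0) (hsurj : ∀ s, ∃ t t', α t + β t' = s)
    (hex : ∀ t t', α t + β t' = 0 ↔ ∃ r, q r = t ∧ p r = t') : Om (kr p q) (kr α β) := by
  have e10 : (1 : ZMod 2) + 1 = 0 := rfl
  refine ⟨fn T, inferInstance, inc p q, cov α β, hig_fn T, ?_, ?_, ?_⟩
  · rintro ⟨r, t⟩ ⟨r', t'⟩ h
    have h11 := congrFun h (el 1 1)
    have h01 := congrFun h (el 0 1)
    have h10 := congrFun h (el 1 0)
    rw [inc_apply, inc_apply] at h11 h01 h10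
    simp only [e10, zero_smul, add_zero, zero_add, one_smul] at h11 h01 h10
    subst h11
    have hp := add_left_cancel h01
    have hq := add_left_cancel h10
    have : r - r' = 0 := hinj _ (by rw [map_sub, hp, sub_self]) (by rw [map_sub, hq, sub_self])
    rw [sub_eq_zero.1 this]
  · rintro ⟨t, s⟩
    obtain ⟨a, b, hab⟩ := hsurj s
    let f : G → T := fun g => if g = el 0 0 then t + a + b else if g = el 1 0 then a else
      if g = el 0 1 then b else 0
    have f00 : f (el 0 0) = t + a + b := rfl
    have f10 : f (el 1 0) = a := rfl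
    have f01 : f (el 0 1) = b := rfl
    have f11 : f (el 1 1) = 0 := rfl
    refine ⟨f, ?_⟩
    rw [cov_apply, f00, f01, f10, f11, add_zero, add_zero, hab]
    refine Prod.ext ?_ rfl
    change t + a + b + b + a = t
    calc t + a + b + b + a = t + (a + a) + (b + b) := by abel
      _ = t := by rw [char_two, char_two]; simp
  · intro f
    constructor
    · intro hf
      have hf' : (cov α β).hom f = 0 := hf
      rw [cov_apply] at hf'
      have h1 := congrArg Prod.fst hf'
      have h2 := congrArg Prod.snd hf'
      dsimp only [] at h1 h2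
      obtain ⟨r, hr1, hr2⟩ := (hex _ _).1 h2
      refine ⟨(r, f (el 1 1)), ?_⟩
      change (inc p q).hom (r, f (el 1 1)) = f
      funext g
      rcases cases_G g with rfl | rfl | rfl | rfl
      · rw [inc_apply, hr1, hr2]
        simp only [add_zero, one_smul]
        have h1' : f (el 0 0) + f (el 0 1) + (f (el 1 0) + f (el 1 1)) = 0 := h1
        rw [add_assoc, add_eq_zero_iff'] at h1'
        rw [h1']
        have := char_two (f (el 1 1))
        calc f (el 1 1) + (f (el 1 0) + f (el 1 1) + (f (el 0 1) + f (el 1 1)))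
            = (f (el 1 1) + f (el 1 1)) + (f (el 0 1) + (f (el 1 0) + f (el 1 1))) := by abel
          _ = _ := by rw [this, zero_add]
      · rw [inc_apply, hr1, hr2]
        simp only [e10, zero_smul, add_zero, one_smul, zero_add]
        have := char_two (f (el 1 1))
        calc f (el 1 1) + (f (el 0 1) + f (el 1 1))
            = (f (el 1 1) + f (el 1 1)) + f (el 0 1) := by abel
          _ = _ := by rw [this, zero_add]
      · rw [inc_apply, hr1, hr2]
        simp only [e10, zero_smul, add_zero, one_smul]
        have := char_two (f (el 1 1))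
        calc f (el 1 1) + (f (el 1 0) + f (el 1 1))
            = (f (el 1 1) + f (el 1 1)) + f (el 1 0) := by abel
          _ = _ := by rw [this, zero_add]
      · rw [inc_apply]
        simp only [e10, zero_smul, add_zero]
    · rintro ⟨⟨r, t⟩, rfl⟩
      change (cov α β).hom ((inc p q).hom (r, t)) = 0
      have v00 : (inc p q).hom (r, t) (el 0 0) = t + (q r + p r) := by
        rw [inc_apply, add_zero, one_smul, one_smul]
      have v01 : (inc p q).hom (r, t) (el 0 1) = t + p r := by
        rw [inc_apply, add_zero, e10, zero_smul, one_smul, zero_add]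
      have v10 : (inc p q).hom (r, t) (el 1 0) = t + q r := by
        rw [inc_apply, add_zero, e10, zero_smul, one_smul, add_zero]
      have v11 : (inc p q).hom (r, t) (el 1 1) = t := by
        rw [inc_apply, e10, zero_smul, zero_smul, add_zero, add_zero]
      rw [cov_apply, v00, v01, v10, v11]
      refine Prod.ext ?_ ?_
      · change t + (q r + p r) + (t + p r) + (t + q r + t) = 0
        calc t + (q r + p r) + (t + p r) + (t + q r + t)
            = (t + t) + (t + t) + (p r + p r) + (q r + q r) := by abel
          _ = 0 := by rw [char_two t, char_two (p r), char_two (q r)]; simp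
      · change α (t + q r + t) + β (t + p r + t) = 0
        have h1 : t + q r + t = q r := by
          calc t + q r + t = (t + t) + q r := by abel
            _ = q r := by rw [char_two, zero_add]
        have h2 : t + p r + t = p r := by
          calc t + p r + t = (t + t) + p r := by abel
            _ = p r := by rw [char_two, zero_add]
        rw [h1, h2]
        exact (hex _ _).2 ⟨r, rfl, rfl⟩

/-- the syzygy, first map -/
noncomputable def nextA (α β : T →ₗ[K] S) : LinearMap.ker (α.coprod β) →ₗ[K] T :=
  LinearMap.snd K T T ∘ₗ (LinearMap.ker (α.coprod β)).subtype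

/-- the syzygy, second map -/
noncomputable def nextB (α β : T →ₗ[K] S) : LinearMap.ker (α.coprod β) →ₗ[K] T :=
  LinearMap.fst K T T ∘ₗ (LinearMap.ker (α.coprod β)).subtype

lemma om_next [FiniteDimensional K T] (α β : T →ₗ[K] S) (h : Function.Surjective α) :
    Om (kr (nextA α β) (nextB α β)) (kr α β) := by
  refine om_kr _ _ _ _ ?_ ?_ ?_
  · rintro ⟨⟨a, b⟩, h⟩ h1 h2
    have h1' : b = 0 := h1
    have h2' : a = 0 := h2
    subst h1' h2'
    rfl
  · intro s
    obtain ⟨t, ht⟩ := h s
    exact ⟨t, 0, by rw [ht, map_zero, add_zero]⟩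
  · intro t t'
    constructor
    · intro h
      exact ⟨⟨(t, t'), h⟩, rfl, rfl⟩
    · rintro ⟨⟨⟨a, b⟩, h⟩, h1, h2⟩
      have h1' : a = t := h1
      have h2' : b = t' := h2
      subst h1' h2'
      exact h

lemma nextA_surj (α β : T →ₗ[K] S) (h : Function.Surjective α) :
    Function.Surjective (nextA α β) := by
  intro b
  obtain ⟨a, ha⟩ := h (β b)
  refine ⟨⟨(a, b), ?_⟩, rfl⟩
  change α a + β b = 0
  rw [ha, char_two]

lemma next_dim [FiniteDimensional K T] (α β : T →ₗ[K] S) (h : Function.Surjective α) :
    Module.finrank K (LinearMap.ker (α.coprod β)) + Module.finrank K S =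
      2 * Module.finrank K T := by
  have h1 := LinearMap.finrank_range_add_finrank_ker (α.coprod β)
  have h2 : LinearMap.range (α.coprod β) = ⊤ := by
    rw [LinearMap.range_eq_top]
    intro s
    obtain ⟨t, ht⟩ := h s
    exact ⟨(t, 0), by simp [ht]⟩
  rw [h2, finrank_top, Module.finrank_prod] at h1
  omega

/-- the cosyzygy, first map -/
noncomputable def prevA (α β : T →ₗ[K] S) : S →ₗ[K] ((S × S) ⧸ LinearMap.range (β.prod α)) :=
  (LinearMap.range (β.prod α)).mkQ ∘ₗ LinearMap.inl K S S

/-- the cosyzygy, second map -/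
noncomputable def prevB (α β : T →ₗ[K] S) : S →ₗ[K] ((S × S) ⧸ LinearMap.range (β.prod α)) :=
  (LinearMap.range (β.prod α)).mkQ ∘ₗ LinearMap.inr K S S

lemma prev_add (α β : T →ₗ[K] S) (t t' : S) :
    prevA α β t + prevB α β t' = (LinearMap.range (β.prod α)).mkQ (t, t') := by
  change Submodule.mkQ _ (t, 0) + Submodule.mkQ _ (0, t') = _
  rw [← map_add]
  simp

lemma om_prev [FiniteDimensional K S] (α β : T →ₗ[K] S) (h : Function.Injective α) :
    Om (kr α β) (kr (prevA α β) (prevB α β)) := by
  refine om_kr _ _ _ _ ?_ ?_ ?_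
  · intro r hr _
    exact h (by rw [hr, map_zero])
  · intro s
    obtain ⟨⟨a, b⟩, rfl⟩ := Submodule.mkQ_surjective _ s
    exact ⟨a, b, prev_add _ _ _ _⟩
  · intro t t'
    rw [prev_add, Submodule.mkQ_apply, Submodule.Quotient.mk_eq_zero]
    constructor
    · rintro ⟨r, hr⟩
      exact ⟨r, congrArg Prod.fst hr, congrArg Prod.snd hr⟩
    · rintro ⟨r, hr1, hr2⟩
      exact ⟨r, Prod.ext hr1 hr2⟩

lemma prevA_inj (α β : T →ₗ[K] S) (h : Function.Injective α) :
    Function.Injective (prevA α β) := by
  rw [← LinearMap.ker_eq_bot, LinearMap.ker_eq_bot']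
  intro a ha
  have h1 : (LinearMap.range (β.prod α)).mkQ (a, 0) = 0 := ha
  rw [Submodule.mkQ_apply, Submodule.Quotient.mk_eq_zero] at h1
  obtain ⟨r, hr⟩ := h1
  have h2 : β r = a := congrArg Prod.fst hr
  have h3 : α r = 0 := congrArg Prod.snd hr
  have h4 : r = 0 := h (by rw [h3, map_zero])
  rw [← h2, h4, map_zero]

lemma prev_dim [FiniteDimensional K S] (α β : T →ₗ[K] S) (h : Function.Injective α) :
    Module.finrank K ((S × S) ⧸ LinearMap.range (β.prod α)) + Module.finrank K T =
      2 * Module.finrank K S := by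
  have h1 := Submodule.finrank_quotient_add_finrank (LinearMap.range (β.prod α))
  have h2 : Module.finrank K (LinearMap.range (β.prod α)) = Module.finrank K T := by
    apply LinearMap.finrank_range_of_inj
    intro a b hab
    exact h (congrArg Prod.snd hab)
  rw [h2, Module.finrank_prod] at h1
  omega

end Kr

/-- bundled data for the positive chain -/
structure Dat where
  T : Type
  S : Type
  [i1 : AddCommGroup T]
  [i2 : Module K T]
  [i3 : AddCommGroup S]
  [i4 : Module K S]
  [i5 : FiniteDimensional K T]
  [i6 : FiniteDimensional K S]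
  α : T →ₗ[K] S
  β : T →ₗ[K] S

attribute [instance] Dat.i1 Dat.i2 Dat.i3 Dat.i4 Dat.i5 Dat.i6

namespace Dat

/-- the module -/
noncomputable def rep (D : Dat) : Rp := kr D.α D.β

instance fd_rep (D : Dat) : FiniteDimensional K D.rep.V :=
  inferInstanceAs (FiniteDimensional K (D.T × D.S))

lemma cc_rep (D : Dat) : cc D.rep = Module.finrank K D.T + Module.finrank K D.S := cc_kr _ _

/-- the syzygy -/
noncomputable def next (D : Dat) : Dat where
  T := LinearMap.ker (D.α.coprod D.β)
  S := D.T
  α := nextA D.α D.β
  β := nextB D.α D.β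

/-- the cosyzygy -/
noncomputable def prev (D : Dat) : Dat where
  T := D.S
  S := (D.S × D.S) ⧸ LinearMap.range (D.β.prod D.α)
  α := prevA D.α D.β
  β := prevB D.α D.β

end Dat

/-- the positive chain -/
noncomputable def posD : ℕ → Dat
  | 0 => { T := K, S := PUnit, α := 0, β := 0 }
  | n + 1 => (posD n).next

/-- the negative chain -/
noncomputable def negD : ℕ → Dat
  | 0 => { T := PUnit, S := K, α := 0, β := 0 }
  | n + 1 => (negD n).prev

lemma posD_surj : ∀ n, Function.Surjective (posD n).α
  | 0 => fun _ => ⟨0, rfl⟩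
  | n + 1 => nextA_surj (posD n).α (posD n).β (posD_surj n)

lemma negD_inj : ∀ n, Function.Injective (negD n).α
  | 0 => fun _ _ _ => rfl
  | n + 1 => prevA_inj (negD n).α (negD n).β (negD_inj n)

lemma posD_dim (n : ℕ) : Module.finrank K (posD n).T = n + 1 ∧ Module.finrank K (posD n).S = n := by
  induction n with
  | zero => exact ⟨Module.finrank_self K, Module.finrank_zero_of_subsingleton (M := PUnit)⟩
  | succ n ih =>
    have h1 := next_dim (posD n).α (posD n).β (posD_surj n)
    have h2 : Module.finrank K (posD (n + 1)).S = Module.finrank K (posD n).T := rfl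
    have h3 : Module.finrank K (posD (n + 1)).T =
      Module.finrank K (LinearMap.ker ((posD n).α.coprod (posD n).β)) := rfl
    omega

lemma negD_dim (n : ℕ) : Module.finrank K (negD n).T = n ∧ Module.finrank K (negD n).S = n + 1 := by
  induction n with
  | zero => exact ⟨Module.finrank_zero_of_subsingleton (M := PUnit), Module.finrank_self K⟩
  | succ n ih =>
    have h1 := prev_dim (negD n).α (negD n).β (negD_inj n)
    have h2 : Module.finrank K (negD (n + 1)).T = Module.finrank K (negD n).S := rfl
    have h3 : Module.finrank K (negD (n + 1)).S = Module.finrank K (((negD n).S × (negD n).S) ⧸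
      LinearMap.range ((negD n).β.prod (negD n).α)) := rfl
    omega

/-- `W s` is the `s`-th syzygy of the trivial module -/
noncomputable def W : ℤ → Rp
  | Int.ofNat n => (posD n).rep
  | Int.negSucc n => (negD (n + 1)).rep

instance fd_W (s : ℤ) : FiniteDimensional K (W s).V := by
  cases s
  · exact Dat.fd_rep _
  · exact Dat.fd_rep _

lemma cc_W (s : ℤ) : cc (W s) = 2 * |s| + 1 := by
  cases s with
  | ofNat n =>
    simp only [W]
    rw [Dat.cc_rep, (posD_dim n).1, (posD_dim n).2]
    simp
    ring
  | negSucc n =>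
    simp only [W]
    rw [Dat.cc_rep, (negD_dim (n + 1)).1, (negD_dim (n + 1)).2]
    rw [Int.negSucc_eq, abs_neg, abs_of_nonneg (by positivity)]
    push_cast
    ring

/-- the two descriptions of the trivial module -/
noncomputable def isoPos : (posD 0).rep ≅ 𝟙_ Rp where
  hom := Rep.ofHom (σ := Representation.trivial K G K) (ρ := krRho (0 : K →ₗ[K] PUnit) 0)
    ⟨LinearMap.fst K K PUnit, fun a => by
      apply LinearMap.ext
      rintro ⟨t, s⟩
      simp [krRho]⟩
  inv := Rep.ofHom (ρ := Representation.trivial K G K) (σ := krRho (0 : K →ₗ[K] PUnit) 0)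
    ⟨LinearMap.inl K K PUnit, fun a => by
      apply LinearMap.ext
      intro t
      simp [krRho]⟩
  hom_inv_id := hom_ext' fun x => rfl
  inv_hom_id := hom_ext' fun x => rfl

/-- the two descriptions of the trivial module -/
noncomputable def isoNeg : (negD 0).rep ≅ 𝟙_ Rp where
  hom := Rep.ofHom (σ := Representation.trivial K G K) (ρ := krRho (0 : PUnit →ₗ[K] K) 0)
    ⟨LinearMap.snd K PUnit K, fun a => by
      apply LinearMap.ext
      rintro ⟨t, s⟩
      simp [krRho]⟩
  inv := Rep.ofHom (ρ := Representation.trivial K G K) (σ := krRho (0 : PUnit →ₗ[K] K) 0)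
    ⟨LinearMap.inr K PUnit K, fun a => by
      apply LinearMap.ext
      intro t
      simp [krRho]⟩
  hom_inv_id := hom_ext' fun x => rfl
  inv_hom_id := hom_ext' fun x => rfl

lemma om_W (s : ℤ) : Om (W (s + 1)) (W s) := by
  rcases s with n | n
  · exact om_next (posD n).α (posD n).β (posD_surj n)
  · rcases n with _ | n
    · exact (om_prev (negD 0).α (negD 0).β (negD_inj 0)).iso (isoPos ≪≫ isoNeg.symm) (Iso.refl _)
    · exact om_prev (negD (n + 1)).α (negD (n + 1)).β (negD_inj (n + 1))

end Pool.Agent.K7.H90.CD
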