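import Mathlib

/-!
# The generating function of a random walk is not rational
-/

set_option autoImplicit false

namespace Pool.Agent.K7.H90.CD

/-- the numbers of the random walk -/
def wk : ℕ → ℤ → ℤ
  | 0, s => 2 * |s| + 1
  | n + 1, s => wk n (s + 1) + wk n (s - 1)

/-- binomial coefficients with integral lower entry -/
def ch (n : ℕ) (j : ℤ) : ℤ := if 0 ≤ j then n.choose j.toNat else 0

lemma ch_succ (n : ℕ) (j : ℤ) : ch (n + 1) j = ch n (j - 1) + ch n j := by
  unfold ch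
  rcases lt_trichotomy j 0 with h | h | h
  · rw [if_neg (by omega), if_neg (by omega), if_neg (by omega)]; rfl
  · subst h
    simp
  · obtain ⟨m, rfl⟩ : ∃ m : ℕ, j = m + 1 := ⟨(j - 1).toNat, by omega⟩
    rw [if_pos (by omega), if_pos (by omega), if_pos (by omega)]
    have h1 : ((m : ℤ) + 1).toNat = m + 1 := by omega
    have h2 : ((m : ℤ) + 1 - 1).toNat = m := by omega
    rw [h1, h2, Nat.choose_succ_succ]
    push_cast
    ring

/-- the number of closed paths -/
def pth (n : ℕ) (s : ℤ) : ℤ := if 2 ∣ ((n : ℤ) + s) then ch n (((n : ℤ) + s) / 2) else 0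

lemma pth_succ (n : ℕ) (s : ℤ) : pth (n + 1) s = pth n (s + 1) + pth n (s - 1) := by
  unfold pth
  by_cases h : (2 : ℤ) ∣ ((n : ℤ) + 1 + s)
  · obtain ⟨m, hm⟩ := h
    rw [if_pos ⟨m, by push_cast; omega⟩, if_pos ⟨m, by omega⟩, if_pos ⟨m - 1, by omega⟩]
    have h1 : (((n + 1 : ℕ) : ℤ) + s) / 2 = m := by push_cast; omega
    have h2 : ((n : ℤ) + (s + 1)) / 2 = m := by omega
    have h3 : ((n : ℤ) + (s - 1)) / 2 = m - 1 := by omega
    rw [h1, h2, h3, ch_succ]
    ring
  · rw [if_neg (by push_cast; omega), if_neg (by omega), if_neg (by omega)]; rfl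

lemma wk_diff (n : ℕ) : ∀ s, wk (n + 1) s - 2 * wk n s = 4 * pth n s := by
  induction n with
  | zero =>
    intro s
    simp only [wk, pth, ch]
    rcases lt_trichotomy s 0 with h | h | h
    · rw [abs_of_nonpos (by omega : s + 1 ≤ 0), abs_of_nonpos (by omega : s - 1 ≤ 0),
        abs_of_neg h]
      rw [if_neg (by omega : ¬ (0 : ℤ) ≤ ((0 : ℕ) + s) / 2)]
      simp; ring
    · subst h; simp
    · rw [abs_of_nonneg (by omega : 0 ≤ s + 1), abs_of_nonneg (by omega : 0 ≤ s - 1),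
        abs_of_pos h]
      by_cases h2 : (2 : ℤ) ∣ ((0 : ℕ) : ℤ) + s
      · obtain ⟨m, hm⟩ := h2
        have hm' : 0 < m := by push_cast at hm; omega
        rw [if_pos ⟨m, hm⟩, if_pos (by omega)]
        obtain ⟨k, rfl⟩ : ∃ k : ℕ, m = k + 1 := ⟨(m - 1).toNat, by omega⟩
        have h3 : (((0 : ℕ) : ℤ) + s) / 2 = k + 1 := by omega
        have h4 : ((k : ℤ) + 1).toNat = k + 1 := by omega
        rw [h3, h4]
        simp; ring
      · rw [if_neg h2]; ring
  | succ n ih =>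
    intro s
    have h1 := ih (s + 1)
    have h2 := ih (s - 1)
    have h3 : wk (n + 2) s = wk (n + 1) (s + 1) + wk (n + 1) (s - 1) := rfl
    have h4 : wk (n + 1) s = wk n (s + 1) + wk n (s - 1) := rfl
    rw [show n + 1 + 1 = n + 2 from rfl, h3, h4, pth_succ]
    linarith

lemma pth_even (m : ℕ) : pth (2 * m) 0 = (2 * m).choose m := by
  unfold pth ch
  rw [if_pos ⟨(m : ℤ), by push_cast; ring⟩]
  have h1 : (((2 * m : ℕ) : ℤ) + 0) / 2 = m := by push_cast; omega
  rw [h1, if_pos (by omega), Int.toNat_natCast]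

lemma pth_odd (m : ℕ) : pth (2 * m + 1) 0 = 0 := by
  unfold pth
  rw [if_neg (by push_cast; omega)]

/-- divisibility of the central binomial coefficient by `3` -/
lemma three_dvd (k m : ℕ) (h1 : m < 3 ^ k) (h2 : 3 ^ k < 2 * m) : 3 ∣ (2 * m).choose m := by
  have hk : k ≠ 0 := by
    rintro rfl
    simp at h1 h2
    omega
  have h3 := Nat.factorization_choose' (p := 3) (n := m) (k := m) (b := max (k + 1)
    (Nat.log 3 (m + m) + 1)) Nat.prime_three (lt_of_lt_of_le (Nat.lt_succ_self _) (le_max_right _ _))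
  have h4 : 0 < ((m + m).choose m).factorization 3 := by
    rw [h3, Finset.card_pos]
    refine ⟨k, Finset.mem_filter.2 ⟨Finset.mem_Ico.2 ⟨by omega, ?_⟩, ?_⟩⟩
    · exact lt_of_lt_of_le (Nat.lt_succ_self k) (le_max_left _ _)
    · rw [Nat.mod_eq_of_lt h1]; omega
  rw [two_mul]
  exact Nat.dvd_of_factorization_pos h4.ne'

lemma not_three_dvd (k : ℕ) : ¬ 3 ∣ (2 * 3 ^ k).choose (3 ^ k) := by
  have h3 := Nat.factorization_choose' (p := 3) (n := 3 ^ k) (k := 3 ^ k)
    (b := Nat.log 3 (3 ^ k + 3 ^ k) + 1) Nat.prime_three (Nat.lt_succ_self _)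
  have h4 : ((3 ^ k + 3 ^ k).choose (3 ^ k)).factorization 3 = 0 := by
    rw [h3, Finset.card_eq_zero, Finset.filter_eq_empty_iff]
    intro i hi
    rcases le_or_gt i k with h | h
    · rw [Nat.mod_eq_zero_of_dvd (pow_dvd_pow 3 h)]
      have : 0 < 3 ^ i := by positivity
      omega
    · have h5 : 3 ^ (k + 1) ≤ 3 ^ i := Nat.pow_le_pow_right (by norm_num) h
      have h6 : 3 ^ (k + 1) = 3 * 3 ^ k := by ring
      have h7 : 0 < 3 ^ k := by positivity
      rw [Nat.mod_eq_of_lt (by omega)]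
      omega
  intro hcon
  rw [two_mul] at hcon
  have h5 : (3 ^ k + 3 ^ k).choose (3 ^ k) ≠ 0 := (Nat.choose_pos (Nat.le_add_left _ _)).ne'
  have h6 := (Nat.Prime.dvd_iff_one_le_factorization Nat.prime_three h5).1 hcon
  omega

/-- the coefficients of `(1 - 2 t) f(t)` -/
def dc (n : ℕ) : ℤ := if n = 0 then 1 else 4 * pth (n - 1) 0

open PowerSeries in
lemma mk_dc : (1 - 2 * (X : ℚ⟦X⟧)) * PowerSeries.mk (fun n => (wk n 0 : ℚ)) =
    PowerSeries.mk (fun n => (dc n : ℚ)) := by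
  have hX : (2 : ℚ⟦X⟧) = PowerSeries.C 2 := rfl
  ext n
  rw [sub_mul, one_mul, map_sub, mul_assoc, hX, PowerSeries.coeff_C_mul]
  cases n with
  | zero => simp [dc, wk]
  | succ n =>
    rw [PowerSeries.coeff_succ_X_mul]
    simp only [PowerSeries.coeff_mk]
    have h := wk_diff n 0
    have h2 : dc (n + 1) = wk (n + 1) 0 - 2 * wk n 0 := by
      rw [h]; simp [dc]
    rw [h2]
    push_cast
    ring

lemma dc_top (k : ℕ) : ¬ (3 : ℤ) ∣ dc (2 * 3 ^ k + 1) := by
  have h1 : dc (2 * 3 ^ k + 1) = 4 * ((2 * 3 ^ k).choose (3 ^ k) : ℤ) := by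
    rw [← pth_even]
    simp [dc]
  rw [h1]
  intro h
  have h2 : (3 : ℤ) ∣ ((2 * 3 ^ k).choose (3 ^ k) : ℤ) := by
    generalize ((2 * 3 ^ k).choose (3 ^ k) : ℤ) = c at h
    omega
  exact not_three_dvd k (by exact_mod_cast h2)

lemma dc_gap (k t : ℕ) (h1 : t < 2 * 3 ^ k + 1) (h2 : 3 ^ k + 2 ≤ t) : (3 : ℤ) ∣ dc t := by
  have h7 : 0 < 3 ^ k := by positivity
  rcases Nat.even_or_odd' t with ⟨m, hm | hm⟩
  · obtain ⟨j, rfl⟩ : ∃ j, m = j + 1 := ⟨m - 1, by omega⟩
    have h3 : dc t = 0 := by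
      have h4 : t - 1 = 2 * j + 1 := by omega
      rw [dc, if_neg (by omega), h4, pth_odd, mul_zero]
    rw [h3]
    exact dvd_zero _
  · have h3 : dc t = 4 * ((2 * m).choose m : ℤ) := by
      have h4 : t - 1 = 2 * m := by omega
      rw [dc, if_neg (by omega), h4, pth_even]
    rw [h3]
    have h5 := three_dvd k m (by omega) (by omega)
    exact Dvd.dvd.mul_left (by exact_mod_cast h5) _

/-- an integral polynomial with a coefficient prime to `3` -/
lemma not_poly (q : Polynomial ℤ) (hq : ∃ i, ¬ (3 : ℤ) ∣ q.coeff i) (R : Polynomial ℚ)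
    (h : ((q.map (Int.castRingHom ℚ) : Polynomial ℚ) : PowerSeries ℚ) *
      PowerSeries.mk (fun n => (dc n : ℚ)) = (R : PowerSeries ℚ)) : False := by
  classical
  let j0 := Nat.find hq
  have hj0 : ¬ (3 : ℤ) ∣ q.coeff j0 := Nat.find_spec hq
  have hj1 : ∀ i < j0, (3 : ℤ) ∣ q.coeff i := by
    intro i hi
    have := Nat.find_min hq hi
    tauto
  obtain ⟨k, hk⟩ : ∃ k : ℕ, q.natDegree + R.natDegree + 5 < 3 ^ k :=
    ⟨q.natDegree + R.natDegree + 5, Nat.lt_pow_self (by norm_num)⟩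
  have h1 := congrArg (PowerSeries.coeff (2 * 3 ^ k + 1 + j0)) h
  rw [Polynomial.coeff_coe, Polynomial.coeff_eq_zero_of_natDegree_lt (by omega),
    PowerSeries.coeff_mul, Finset.Nat.sum_antidiagonal_eq_sum_range_succ_mk] at h1
  simp only [Polynomial.coeff_coe, Polynomial.coeff_map, PowerSeries.coeff_mk, eq_intCast] at h1
  have h2 : ∑ i ∈ Finset.range (2 * 3 ^ k + 1 + j0).succ,
      q.coeff i * dc (2 * 3 ^ k + 1 + j0 - i) = 0 := by exact_mod_cast h1
  have h3 : j0 ∈ Finset.range (2 * 3 ^ k + 1 + j0).succ := Finset.mem_range.2 (by omega)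
  rw [← Finset.add_sum_erase _ _ h3] at h2
  have h4 : (3 : ℤ) ∣ ∑ i ∈ (Finset.range (2 * 3 ^ k + 1 + j0).succ).erase j0,
      q.coeff i * dc (2 * 3 ^ k + 1 + j0 - i) := by
    refine Finset.dvd_sum fun i hi => ?_
    rw [Finset.mem_erase, Finset.mem_range] at hi
    rcases lt_or_gt_of_ne hi.1 with hlt | hgt
    · exact Dvd.dvd.mul_right (hj1 i hlt) _
    · rcases lt_or_ge q.natDegree i with h5 | h5
      · rw [Polynomial.coeff_eq_zero_of_natDegree_lt h5, zero_mul]
        exact dvd_zero _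
      · refine Dvd.dvd.mul_left (dc_gap k _ ?_ ?_) _
        · omega
        · omega
  have h5 : (3 : ℤ) ∣ q.coeff j0 * dc (2 * 3 ^ k + 1 + j0 - j0) := by
    rw [show q.coeff j0 * dc (2 * 3 ^ k + 1 + j0 - j0) =
      - ∑ i ∈ (Finset.range (2 * 3 ^ k + 1 + j0).succ).erase j0,
      q.coeff i * dc (2 * 3 ^ k + 1 + j0 - i) by linarith]
    exact (dvd_neg).2 h4
  rw [Nat.add_sub_cancel] at h5
  rcases (Int.prime_three.dvd_or_dvd h5) with h6 | h6
  · exact hj0 h6
  · exact dc_top k h6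

theorem not_rational (P Q : Polynomial ℚ) (hQ : Q ≠ 0)
    (h : (Q : PowerSeries ℚ) * PowerSeries.mk (fun n => (wk n 0 : ℚ)) = (P : PowerSeries ℚ)) :
    False := by
  obtain ⟨b, hb1, hb2⟩ := IsLocalization.integerNormalization_spec (nonZeroDivisors ℤ) Q
  set p0 := IsLocalization.integerNormalization (nonZeroDivisors ℤ) Q with hp0def
  have hb0 : b ≠ 0 := nonZeroDivisors.ne_zero hb1
  have hp0 : p0 ≠ 0 := by
    intro hcon
    rw [hcon, Polynomial.map_zero] at hb2
    rcases smul_eq_zero.1 hb2.symm with h1 | h1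
    · exact hb0 h1
    · exact hQ h1
  have hc : p0.content ≠ 0 := by rwa [Ne, Polynomial.content_eq_zero_iff]
  have hc' : (p0.content : ℚ) ≠ 0 := by exact_mod_cast hc
  have hprim := p0.isPrimitive_primPart
  have hex : ∃ i, ¬ (3 : ℤ) ∣ p0.primPart.coeff i := by
    by_contra hcon
    push Not at hcon
    have h1 : Polynomial.C (3 : ℤ) ∣ p0.primPart := (Polynomial.C_dvd_iff_dvd_coeff _ _).2 hcon
    have h2 := hprim 3 h1
    exact absurd (Int.isUnit_iff.1 h2) (by norm_num)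
  have h1 : Polynomial.C (p0.content : ℚ) * p0.primPart.map (Int.castRingHom ℚ) =
      Polynomial.C (b : ℚ) * Q := by
    have h2 := congrArg (Polynomial.map (Int.castRingHom ℚ)) p0.eq_C_content_mul_primPart
    rw [Polynomial.map_mul, Polynomial.map_C] at h2
    have h3 : p0.map (Int.castRingHom ℚ) = b • Q := hb2
    rw [h3] at h2
    have h4 : (b • Q : Polynomial ℚ) = Polynomial.C (b : ℚ) * Q := by
      rw [← Polynomial.smul_eq_C_mul]
      ext n
      simp
    rw [← h4, h2]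
    simp
  have h2 : p0.primPart.map (Int.castRingHom ℚ) =
      Polynomial.C ((p0.content : ℚ)⁻¹ * b) * Q := by
    rw [Polynomial.C_mul, mul_assoc, ← h1, ← mul_assoc, ← Polynomial.C_mul,
      inv_mul_cancel₀ hc', Polynomial.C_1, one_mul]
  refine not_poly p0.primPart hex ((1 - 2 * Polynomial.X) *
    (Polynomial.C ((p0.content : ℚ)⁻¹ * b) * P)) ?_
  rw [h2, ← mk_dc]
  push_cast
  rw [← h]
  have h3 : ((2 : Polynomial ℚ) : PowerSeries ℚ) = 2 := by
    exact map_ofNat (Polynomial.coeToPowerSeries.ringHom (R := ℚ)) 2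
  rw [h3]
  ring

end Pool.Agent.K7.H90.CD
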