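import Pool.Agent.K7.H90.CD.Chain
import Pool.Agent.K7.H90.CD.Rat

set_option autoImplicit false

open CategoryTheory CategoryTheory.MonoidalCategory CategoryTheory.Limits

namespace Pool.Agent.K7.H90.CD

/-- the syzygy of the trivial module -/
noncomputable abbrev MA : Rp := W 1

/-- the cosyzygy of the trivial module -/
noncomputable abbrev MB : Rp := W (-1)

lemma om_MA : Om MA (𝟙_ Rp) := (om_W 0).iso (Iso.refl _) isoPos

lemma om_MB : Om (𝟙_ Rp) MB := by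
  have h : Om (W (-1 + 1)) MB := om_W (-1)
  rw [show (-1 : ℤ) + 1 = 0 from rfl] at h
  exact h.iso isoPos.symm (Iso.refl _)

instance fd_unit : FiniteDimensional K (𝟙_ Rp).V := inferInstanceAs (FiniteDimensional K K)

lemma om_MA_tensor (X : Rp) [FiniteDimensional K X.V] : Om (MA ⊗ X) X :=
  (om_MA.tensor X).iso (Iso.refl _) (λ_ X)

lemma om_MB_tensor (X : Rp) [FiniteDimensional K X.V] : Om X (MB ⊗ X) :=
  (om_MB.tensor X).iso (λ_ X).symm (Iso.refl _)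

lemma cc_MA_MB (X : Rp) [FiniteDimensional K X.V] : cc (MA ⊗ (MB ⊗ X)) = cc X :=
  om_unique (om_MA_tensor (MB ⊗ X)) (om_MB_tensor X)

lemma cc_MA (s : ℤ) (X : Rp) [FiniteDimensional K X.V] :
    cc (MA ⊗ (W s ⊗ X)) = cc (W (s + 1) ⊗ X) :=
  om_unique (om_MA_tensor (W s ⊗ X)) ((om_W s).tensor X)

/-- exchange of the first two factors -/
noncomputable def exch (X Y Z : Rp) : X ⊗ (Y ⊗ Z) ≅ Y ⊗ (X ⊗ Z) :=
  (α_ X Y Z).symm ≪≫ (whiskerRightIso (β_ X Y) Z) ≪≫ α_ Y X Z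

lemma cc_W_MA (s : ℤ) (X : Rp) [FiniteDimensional K X.V] :
    cc (W s ⊗ (MA ⊗ X)) = cc (W (s + 1) ⊗ X) := by
  rw [cc_iso (exch (W s) MA X), cc_MA]

lemma cc_W_MB (s : ℤ) (X : Rp) [FiniteDimensional K X.V] :
    cc (W s ⊗ (MB ⊗ X)) = cc (W (s - 1) ⊗ X) := by
  have h1 := cc_MA (s - 1) (MB ⊗ X)
  rw [sub_add_cancel] at h1
  rw [← h1, cc_iso (whiskerLeftIso MA (exch (W (s - 1)) MB X)), cc_MA_MB]

/-- the module -/
noncomputable def M : Rp := MA ⊞ MB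

instance fd_M : FiniteDimensional K M.V := inferInstanceAs (FiniteDimensional K (MA ⊞ MB : Rp).V)

attribute [local instance] preservesBinaryBiproduct_of_preservesBiproduct

/-- distributivity -/
noncomputable def distrib (Y X : Rp) : Y ⊗ (M ⊗ X) ≅ (Y ⊗ (MA ⊗ X)) ⊞ (Y ⊗ (MB ⊗ X)) :=
  whiskerLeftIso Y ((tensorRight X).mapBiprod MA MB) ≪≫ (tensorLeft Y).mapBiprod _ _

lemma cc_W_M (s : ℤ) (X : Rp) [FiniteDimensional K X.V] :
    cc (W s ⊗ (M ⊗ X)) = cc (W (s + 1) ⊗ X) + cc (W (s - 1) ⊗ X) := by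
  rw [cc_iso (distrib (W s) X), cc_biprod, cc_W_MA, cc_W_MB]

/-- right nested powers -/
noncomputable def pw : ℕ → Rp
  | 0 => 𝟙_ Rp
  | n + 1 => M ⊗ pw n

instance fd_pw (n : ℕ) : FiniteDimensional K (pw n).V := by
  induction n with
  | zero => exact fd_unit
  | succ n ih => exact inferInstanceAs (FiniteDimensional K (M ⊗ pw n : Rp).V)

/-- comparison with the left nested powers -/
lemma iter_iso (n : ℕ) : ∀ X : Rp, Nonempty ((fun X : Rp => X ⊗ M)^[n] X ≅ X ⊗ pw n) := by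
  induction n with
  | zero => exact fun X => ⟨(ρ_ X).symm⟩
  | succ n ih =>
    intro X
    obtain ⟨e⟩ := ih (X ⊗ M)
    exact ⟨e ≪≫ α_ X M (pw n)⟩

lemma cc_W_pw (n : ℕ) : ∀ s : ℤ, cc (W s ⊗ pw n) = wk n s := by
  induction n with
  | zero =>
    intro s
    have : cc (W s ⊗ pw 0) = cc (W s) := cc_iso (ρ_ (W s))
    rw [this, cc_W, wk]
  | succ n ih =>
    intro s
    have : cc (W s ⊗ pw (n + 1)) = cc (W (s + 1) ⊗ pw n) + cc (W (s - 1) ⊗ pw n) := cc_W_M s (pw n)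
    rw [this, ih, ih, wk]

lemma W_zero : Nonempty (W 0 ≅ 𝟙_ Rp) := ⟨isoPos⟩

lemma core_iter (n : ℕ) :
    ((sInf {d : ℕ | ∃ N P' : Rp, Projective P' ∧
      Nonempty ((fun X : Rp => X ⊗ M)^[n] (𝟙_ Rp) ≅ N ⊞ P') ∧
      Module.finrank K N.V = d} : ℕ) : ℤ) = wk n 0 := by
  obtain ⟨e⟩ := iter_iso n (𝟙_ Rp)
  obtain ⟨e0⟩ := W_zero
  have hfd : FiniteDimensional K ((fun X : Rp => X ⊗ M)^[n] (𝟙_ Rp)).V :=
    Module.Finite.equiv (linEq e).symm
  rw [core_dim, cc_iso e, ← cc_W_pw, cc_iso (whiskerRightIso e0 (pw n))]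

end Pool.Agent.K7.H90.CD
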