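import Pool.Agent.K7.H90.CD.Basic

set_option autoImplicit false

open CategoryTheory CategoryTheory.MonoidalCategory CategoryTheory.Limits

namespace Pool.Agent.K7.H90.CD

instance fd_fn (V : Type) [AddCommGroup V] [Module K V] [FiniteDimensional K V] :
    FiniteDimensional K (fn V).V := inferInstanceAs (FiniteDimensional K (G → V))

/-- a computation in the group algebra of the Klein four group -/
lemma conv_sq : ∀ u : ZMod 2 × ZMod 2 → ZMod 2, ∑ t, u t = 1 → ∀ h h' : ZMod 2 × ZMod 2,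
    ∑ t, u (h + t) * u (t + h') = if h = h' then 1 else 0 := by
  decide

/-- the map from the regular representation given by a vector -/
noncomputable def al (X : Rp) (v : X.V) : fn K ⟶ X :=
  Rep.ofHom (σ := X.ρ) (ρ := fnRho K)
    ⟨∑ g : G, X.ρ g ∘ₗ (LinearMap.toSpanSingleton K X.V v) ∘ₗ (LinearMap.proj g : (G → K) →ₗ[K] K),
    fun a => by
      apply LinearMap.ext
      intro f
      simp only [LinearMap.comp_apply, LinearMap.sum_apply, LinearMap.proj_apply, fnRho_apply,
        map_sum]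
      refine Fintype.sum_equiv (Equiv.mulRight a) _ _ ?_
      intro g
      simp only [Equiv.coe_mulRight]
      rw [← Module.End.mul_apply, ← map_mul, mul_comm g a, ← mul_assoc, mul_self, one_mul]⟩

lemma al_apply (X : Rp) (v : X.V) (f : G → K) : (al X v).hom f = ∑ g : G, f g • X.ρ g v := by
  change (∑ g : G, X.ρ g ∘ₗ (LinearMap.toSpanSingleton K X.V v) ∘ₗ
    (LinearMap.proj g : (G → K) →ₗ[K] K)) f = _
  simp

/-- the map to the regular representation given by a functional -/
noncomputable def be (X : Rp) (φ : X.V →ₗ[K] K) : X ⟶ fn K :=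
  Rep.ofHom (σ := fnRho K) (ρ := X.ρ)
    ⟨LinearMap.pi fun g => φ ∘ₗ X.ρ g, fun a => by
      apply LinearMap.ext
      intro x
      funext h
      simp⟩

lemma be_apply (X : Rp) (φ : X.V →ₗ[K] K) (x : X.V) (h : G) : (be X φ).hom x h = φ (X.ρ h x) := rfl

lemma be_al (X : Rp) (v : X.V) (φ : X.V →ₗ[K] K) (f : G → K) (h : G) :
    (be X φ).hom ((al X v).hom f) h = ∑ g : G, f g * φ (X.ρ (h * g) v) := by
  rw [be_apply, al_apply, map_sum, map_sum]
  refine Finset.sum_congr rfl fun g _ => ?_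
  rw [map_smul, map_smul, map_mul, Module.End.mul_apply, smul_eq_mul]

lemma be_al_sq (X : Rp) (v : X.V) (φ : X.V →ₗ[K] K) (hφ : φ (nu X v) = 1) (f : G → K) :
    (be X φ).hom ((al X v).hom ((be X φ).hom ((al X v).hom f))) = f := by
  funext h
  rw [be_al]
  rw [Finset.sum_congr rfl fun g _ => by rw [be_al, Finset.sum_mul]]
  rw [Finset.sum_comm]
  have h1 : ∑ t : ZMod 2 × ZMod 2, φ (X.ρ (Multiplicative.ofAdd t) v) = 1 := by
    rw [nu_apply, map_sum] at hφ
    exact hφ
  have h2 := conv_sq (fun t => φ (X.ρ (Multiplicative.ofAdd t) v)) h1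
  have h3 : ∀ g : G, ∑ t : G, f g * φ (X.ρ (t * g) v) * φ (X.ρ (h * t) v) =
      f g * if h = g then 1 else 0 := by
    intro g
    have h4 := h2 (Multiplicative.toAdd h) (Multiplicative.toAdd g)
    have h5 : (∑ t : G, φ (X.ρ (h * t) v) * φ (X.ρ (t * g) v)) = if h = g then 1 else 0 := h4
    rw [← h5, Finset.mul_sum]
    refine Finset.sum_congr rfl fun t _ => ?_
    ring
  rw [Finset.sum_congr rfl fun g _ => h3 g]
  simp

/-- a subrepresentation given by the kernel of a morphism -/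
noncomputable def kerRep {X Y : Rp} (p : X ⟶ Y) : Rp :=
  Rep.subrepresentation X (LinearMap.ker p.hom.toLinearMap) (by
    intro g x hx
    have hx' : p.hom x = 0 := hx
    change p.hom (X.ρ g x) = 0
    rw [Rep.hom_comm_apply, hx', map_zero])

/-- the inclusion -/
noncomputable def kerInc {X Y : Rp} (p : X ⟶ Y) : kerRep p ⟶ X := Rep.subtype X _ _

lemma kerInc_inj {X Y : Rp} (p : X ⟶ Y) : Function.Injective (kerInc p).hom := by
  intro a b h
  exact Subtype.ext h

lemma kerInc_mem {X Y : Rp} (p : X ⟶ Y) (x : X.V) (h : p.hom x = 0) :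
    ∃ n, (kerInc p).hom n = x := ⟨⟨x, h⟩, rfl⟩

lemma kerInc_ker {X Y : Rp} (p : X ⟶ Y) (n : (kerRep p).V) : p.hom ((kerInc p).hom n) = 0 := n.2

lemma fd_of_inj {X Y : Rp} (i : X ⟶ Y) (hi : Function.Injective i.hom)
    [FiniteDimensional K Y.V] : FiniteDimensional K X.V :=
  Module.Finite.of_injective i.hom.toLinearMap hi

lemma exists_split : ∀ (n : ℕ) (X : Rp) [FiniteDimensional K X.V], Module.finrank K X.V = n →
    ∃ N P' : Rp, Hig P' ∧ Nonempty (X ≅ N ⊞ P') ∧ (Module.finrank K N.V : ℤ) = cc X := by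
  intro n
  induction n using Nat.strong_induction_on with
  | _ n IH =>
  intro X _ hn
  by_cases h0 : nu X = 0
  · refine ⟨X, fn PUnit, hig_fn _, ?_, ?_⟩
    · obtain ⟨e⟩ := iso_of_split (𝟙 X) (0 : X ⟶ fn PUnit) 0 (fun a b h => h)
        (fun x _ => ⟨x, rfl⟩) (fun _ => rfl) (fun y => Subsingleton.elim (α := G → PUnit) _ _)
      exact ⟨e ≪≫ (prodIso _ _).symm⟩
    · rw [cc, h0, LinearMap.range_zero, finrank_bot]
      norm_num
  · obtain ⟨v, hv⟩ : ∃ v, nu X v ≠ 0 := by
      by_contra hcon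
      push Not at hcon
      exact h0 (LinearMap.ext hcon)
    obtain ⟨φ, hφ⟩ : ∃ φ : X.V →ₗ[K] K, φ (nu X v) = 1 := by
      by_contra hcon
      push Not at hcon
      apply hv
      rw [← Module.forall_dual_apply_eq_zero_iff K]
      intro φ
      have h1 := hcon φ
      have h2 : ∀ a : ZMod 2, a ≠ 1 → a = 0 := by decide
      exact h2 _ h1
    let p : X ⟶ fn K := be X φ ≫ al X v ≫ be X φ
    have hp : ∀ f, p.hom ((al X v).hom f) = f := be_al_sq X v φ hφ
    obtain ⟨e⟩ := iso_of_split (kerInc p) p (al X v) (kerInc_inj p) (kerInc_mem p) (kerInc_ker p) hp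
    have hfd : FiniteDimensional K (kerRep p).V := fd_of_inj (kerInc p) (kerInc_inj p)
    have hcc : cc X = cc (kerRep p) := by
      rw [cc_iso e, cc_prd, cc_hig (hig_fn K), add_zero]
    have hdim : Module.finrank K (kerRep p).V < n := by
      have h1 := (linEq e).finrank_eq
      have h2 : Module.finrank K (prd (kerRep p) (fn K)).V =
        Module.finrank K (kerRep p).V + Module.finrank K (fn K).V := Module.finrank_prod
      have h3 : Module.finrank K (fn K).V = 4 := by
        change Module.finrank K (G → K) = 4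
        rw [Module.finrank_pi]
        rfl
      omega
    obtain ⟨N, P', hP', ⟨e'⟩, hN⟩ := IH _ hdim (kerRep p) rfl
    refine ⟨N, P' ⊞ fn K, ?_, ⟨?_⟩, ?_⟩
    · exact (hP'.prd (hig_fn K)).iso (prodIso _ _).symm
    · exact e ≪≫ (prodIso _ _).symm ≪≫ biprod.mapIso e' (Iso.refl _) ≪≫ biprod.associator _ _ _
    · rw [hN, hcc]

/-- the invariant is the dimension of the core -/
theorem core_dim (X : Rp) [FiniteDimensional K X.V] :
    ((sInf {d : ℕ | ∃ N P' : Rp, Projective P' ∧ Nonempty (X ≅ N ⊞ P') ∧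
      Module.finrank K N.V = d} : ℕ) : ℤ) = cc X := by
  obtain ⟨N, P', hP', he, hN⟩ := exists_split _ X rfl
  have h1 : (sInf {d : ℕ | ∃ N P' : Rp, Projective P' ∧ Nonempty (X ≅ N ⊞ P') ∧
      Module.finrank K N.V = d}) = Module.finrank K N.V := by
    apply le_antisymm
    · exact Nat.sInf_le ⟨N, P', hP'.projective, he, rfl⟩
    · refine le_csInf ⟨_, N, P', hP'.projective, he, rfl⟩ ?_
      rintro d ⟨N1, P1, hP1, ⟨e1⟩, rfl⟩
      have e2 := e1 ≪≫ prodIso _ _
      have hfd : FiniteDimensional K (prd N1 P1).V := Module.Finite.equiv (linEq e2)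
      have hN1 : FiniteDimensional K N1.V :=
        Module.Finite.of_surjective (LinearMap.fst K N1.V P1.V) LinearMap.fst_surjective
      have hP1' : FiniteDimensional K P1.V :=
        Module.Finite.of_surjective (LinearMap.snd K N1.V P1.V) LinearMap.snd_surjective
      have h2 : cc X = cc N1 := by
        rw [cc_iso e2, cc_prd, cc_hig (hig_of_projective hP1), add_zero]
      have h3 : cc N1 ≤ Module.finrank K N1.V := by
        rw [cc]; omega
      omega
  rw [h1, hN]

/-- `A` is the kernel of an epimorphism from a projective module to `V` -/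
def Om (A V : Rp) : Prop := ∃ (P : Rp) (_ : FiniteDimensional K P.V) (i : A ⟶ P) (f : P ⟶ V),
  Hig P ∧ Function.Injective i.hom ∧ Function.Surjective f.hom ∧
    Function.Exact i.hom.toLinearMap f.hom.toLinearMap

lemma Om.fd {A V : Rp} (h : Om A V) : FiniteDimensional K A.V := by
  obtain ⟨P, _, i, f, _, hi, _⟩ := h
  exact fd_of_inj i hi

/-- the difference map -/
noncomputable def dd {P Q V : Rp} (f : P ⟶ V) (g : Q ⟶ V) : prd P Q ⟶ V :=
  Rep.ofHom (σ := V.ρ) (ρ := P.ρ.prod Q.ρ) ⟨f.hom.toLinearMap.coprod g.hom.toLinearMap, fun a => by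
    apply LinearMap.ext
    intro x
    simp [Rep.hom_comm_apply]⟩

lemma dd_apply {P Q V : Rp} (f : P ⟶ V) (g : Q ⟶ V) (x : P.V) (y : Q.V) :
    (dd f g).hom (x, y) = f.hom x + g.hom y := rfl

/-- factoring through the kernel -/
noncomputable def kerLift {Z X Y : Rp} (p : X ⟶ Y) (t : Z ⟶ X) (h : ∀ z, p.hom (t.hom z) = 0) :
    Z ⟶ kerRep p :=
  Rep.ofHom (σ := (kerRep p).ρ) (ρ := Z.ρ)
    ⟨LinearMap.codRestrict (LinearMap.ker p.hom.toLinearMap) t.hom.toLinearMap h, fun a => by
      apply LinearMap.ext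
      intro x
      apply Subtype.ext
      exact Rep.hom_comm_apply t a x⟩

lemma kerLift_inc {Z X Y : Rp} (p : X ⟶ Y) (t : Z ⟶ X) (h : ∀ z, p.hom (t.hom z) = 0) (z : Z.V) :
    (kerInc p).hom ((kerLift p t h).hom z) = t.hom z := rfl

/-- the inclusion of the first factor -/
noncomputable def inlHom (P Q : Rp) : P ⟶ prd P Q := Rep.ofHom (.inl K P.ρ Q.ρ)

lemma inlHom_apply (P Q : Rp) (x : P.V) : (inlHom P Q).hom x = (x, 0) := rfl

/-- the projection to the second factor -/
noncomputable def sndHom (P Q : Rp) : prd P Q ⟶ Q := Rep.ofHom (.snd K P.ρ Q.ρ)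

lemma sndHom_apply (P Q : Rp) (x : P.V × Q.V) : (sndHom P Q).hom x = x.2 := rfl

/-- exchange of the factors -/
noncomputable def swapHom (P Q : Rp) : prd P Q ⟶ prd Q P :=
  Rep.ofHom ((Representation.IntertwiningMap.snd K P.ρ Q.ρ).prod
    (Representation.IntertwiningMap.fst K P.ρ Q.ρ))

lemma swapHom_apply (P Q : Rp) (x : P.V × Q.V) : (swapHom P Q).hom x = (x.2, x.1) := rfl

lemma hom_ext' {X Y : Rp} {f g : X ⟶ Y} (h : ∀ x, f.hom x = g.hom x) : f = g := by
  ext1
  apply Representation.IntertwiningMap.ext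
  apply LinearMap.ext
  exact h

/-- exchange of the factors -/
noncomputable def kerSwap {P Q V : Rp} (f : P ⟶ V) (g : Q ⟶ V) :
    kerRep (dd f g) ≅ kerRep (dd g f) where
  hom := kerLift _ (kerInc (dd f g) ≫ swapHom P Q) (by
    rintro ⟨⟨x, y⟩, h⟩
    have h' : f.hom x + g.hom y = 0 := h
    change g.hom y + f.hom x = 0
    rw [add_comm, h'])
  inv := kerLift _ (kerInc (dd g f) ≫ swapHom Q P) (by
    rintro ⟨⟨x, y⟩, h⟩
    have h' : g.hom x + f.hom y = 0 := h
    change f.hom y + g.hom x = 0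
    rw [add_comm, h'])
  hom_inv_id := hom_ext' fun _ => rfl
  inv_hom_id := hom_ext' fun _ => rfl

/-- the fibre product over an epimorphism, projective case -/
lemma cc_fibre {A P Q V : Rp} [FiniteDimensional K A.V] [FiniteDimensional K P.V]
    [FiniteDimensional K Q.V] (i : A ⟶ P) (f : P ⟶ V) (g : Q ⟶ V) (hQ : Hig Q)
    (hi : Function.Injective i.hom) (hf : Function.Surjective f.hom)
    (hif : Function.Exact i.hom.toLinearMap f.hom.toLinearMap) : cc (kerRep (dd f g)) = cc A := by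
  have hq : Function.Surjective (kerInc (dd f g) ≫ sndHom P Q).hom := by
    intro y
    obtain ⟨x, hx⟩ := hf (g.hom y)
    refine ⟨⟨(x, y), ?_⟩, rfl⟩
    change f.hom x + g.hom y = 0
    rw [hx, char_two]
  obtain ⟨s, hs⟩ := section_of_projective hQ.projective _ hq
  have hex : ∀ x : A.V, f.hom (i.hom x) = 0 := fun x => (hif (i.hom x)).2 ⟨x, rfl⟩
  have hz : ∀ z, (dd f g).hom ((i ≫ inlHom P Q).hom z) = 0 := by
    intro z
    change f.hom (i.hom z) + g.hom 0 = 0
    rw [hex, map_zero, add_zero]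
  obtain ⟨e⟩ := iso_of_split (kerLift (dd f g) (i ≫ inlHom P Q) hz) _ s (by
      intro x y hxy
      have h1 : ((i.hom x, 0) : P.V × Q.V) = (i.hom y, 0) := congrArg Subtype.val hxy
      exact hi (congrArg Prod.fst h1)) (by
      rintro ⟨⟨x, y⟩, hxy⟩ hx
      have h1 : y = 0 := hx
      subst h1
      have h2 : f.hom x + g.hom 0 = 0 := hxy
      rw [map_zero, add_zero] at h2
      obtain ⟨z, hz⟩ := (hif x).1 h2
      refine ⟨z, Subtype.ext ?_⟩
      change ((i.hom z, 0) : P.V × Q.V) = (x, 0)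
      have hz' : i.hom z = x := hz
      rw [hz']) (fun _ => rfl) hs
  have : FiniteDimensional K (kerRep (dd f g)).V :=
    fd_of_inj (kerInc (dd f g)) (kerInc_inj (dd f g))
  rw [cc_iso e, cc_prd, cc_hig hQ, add_zero]

/-- Schanuel's lemma -/
lemma om_unique {A B V : Rp} (hA : Om A V) (hB : Om B V) : cc A = cc B := by
  have := hA.fd
  have := hB.fd
  obtain ⟨P, _, i, f, hP, hi, hf, hif⟩ := hA
  obtain ⟨Q, _, j, g, hQ, hj, hg, hjg⟩ := hB
  rw [← cc_fibre i f g hQ hi hf hif, ← cc_fibre j g f hP hj hg hjg]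
  exact cc_iso (kerSwap f g)

lemma Om.iso {A A' V V' : Rp} (h : Om A V) (e : A' ≅ A) (e' : V ≅ V') : Om A' V' := by
  obtain ⟨P, hfd, i, f, hP, hi, hf, hif⟩ := h
  refine ⟨P, hfd, e.hom ≫ i, f ≫ e'.hom, hP, ?_, ?_, ?_⟩
  · intro x y hxy
    exact (linEq e).injective (hi hxy)
  · intro y
    obtain ⟨x, hx⟩ := hf ((linEq e').symm y)
    refine ⟨x, ?_⟩
    change linEq e' (f.hom x) = y
    rw [hx, LinearEquiv.apply_symm_apply]
  · intro x
    constructor
    · intro hx
      have h1 : linEq e' (f.hom x) = 0 := hx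
      have h2 : f.hom x = 0 := by simpa using h1
      obtain ⟨z, hz⟩ := (hif x).1 h2
      refine ⟨(linEq e).symm z, ?_⟩
      change i.hom (linEq e ((linEq e).symm z)) = x
      rw [LinearEquiv.apply_symm_apply]
      exact hz
    · rintro ⟨z, rfl⟩
      change linEq e' (f.hom (i.hom (linEq e z))) = 0
      have h1 : f.hom (i.hom (linEq e z)) = 0 := (hif _).2 ⟨_, rfl⟩
      rw [h1, map_zero]

lemma Om.tensor {A V : Rp} (h : Om A V) (Z : Rp) [FiniteDimensional K Z.V] :
    Om (A ⊗ Z) (V ⊗ Z) := by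
  obtain ⟨P, hfd, i, f, hP, hi, hf, hif⟩ := h
  refine ⟨P ⊗ Z, inferInstance, i ▷ Z, f ▷ Z, hP.tensor Z, ?_, ?_, ?_⟩
  · exact Module.Flat.rTensor_preserves_injective_linearMap (M := Z.V) i.hom.toLinearMap hi
  · exact LinearMap.rTensor_surjective Z.V hf
  · exact rTensor_exact Z.V hif hf

end Pool.Agent.K7.H90.CD
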